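import Mathlib
import Pool.Agent.H8.BarnesC

open MeasureTheory Set Filter Topology Asymptotics Complex

namespace Pool.Agent.Results.MP_047497_nt.Liouville

/-- `Z` is the continuation of the Barnes zeta function `ζ_r(s; a, w)` to the half plane
`Re s > r - 1`: it is holomorphic there off `s = r`, and it is the sum of the Barnes series for
`Re s > r`. -/
def IsBarnes (r : ℕ) (a : ℝ) (w : Fin r → ℝ) (Z : ℂ → ℂ) : Prop :=
  DifferentiableOn ℂ Z {s | (r : ℝ) - 1 < s.re ∧ s ≠ (r : ℂ)} ∧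
    ∀ s : ℂ, (r : ℝ) < s.re →
      HasSum (fun m : Fin r → ℕ => ((a + ∑ i, (m i : ℝ) * w i : ℝ) : ℂ) ^ (-s)) (Z s)

open Pool.Agent.H8.Barnes in
theorem hasSum_aux {α : ℝ} (hα : 0 < α) {s : ℂ} (hs : 2 < s.re) :
    HasSum (fun m : Fin 2 → ℕ => (((1 : ℝ) + ∑ i, (m i : ℝ) * (![1, α] : Fin 2 → ℝ) i : ℝ) : ℂ) ^ (-s))
      (Z0 α s) := by
  have h := (Equiv.hasSum_iff (finTwoArrowEquiv ℕ)).2 (hasSum_Z0 hα hs)
  convert h using 2 with m
  simp [lam, Fin.sum_univ_two, add_assoc]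

theorem finrank_aux {α : ℝ} (h : Irrational α) :
    Module.finrank ℚ (Submodule.span ℚ (Set.range (![1, α] : Fin 2 → ℝ))) = 2 := by
  have : LinearIndependent ℚ (![1, α] : Fin 2 → ℝ) := by
    rw [LinearIndependent.pair_iff]
    intro s t hst
    by_cases ht : t = 0
    · subst ht; simpa using hst
    · exfalso
      apply h
      refine ⟨-s / t, ?_⟩
      have ht' : (t : ℝ) ≠ 0 := by exact_mod_cast ht
      simp only [Rat.smul_def, mul_one] at hst
      push_cast; field_simp; linarith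
  simpa using finrank_span_eq_card this

open Pool.Agent.H8.Barnes in
theorem result :
    ∃ (r : ℕ) (a : ℝ) (w : Fin r → ℝ) (k : ℕ) (ε σ : ℝ),
      1 ≤ r ∧ 0 < a ∧ (∀ i, 0 < w i) ∧ 1 ≤ k ∧ 0 < ε ∧
      (r : ℝ) - (Module.finrank ℚ (Submodule.span ℚ (Set.range w)) : ℝ) / 2 ≤ σ ∧
      (r : ℝ) - 1 < σ ∧ (∃ Z, IsBarnes r a w Z) ∧
      ∀ Z, IsBarnes r a w Z →
        ¬ (fun T : ℝ => ∫ t in (1 : ℝ)..T, ‖Z (σ + t * I)‖ ^ (2 * k)) =O[atTop]
          (fun T : ℝ => T ^ (1 + ε)) := by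
  obtain ⟨α, hα, hL⟩ : ∃ α : ℝ, 0 < α ∧ Liouville α := by
    have hL := liouville_liouvilleNumber (le_refl 2)
    rcases lt_trichotomy (liouvilleNumber (2 : ℕ)) 0 with h | h | h
    · refine ⟨-liouvilleNumber (2 : ℕ), by linarith, fun n => ?_⟩
      obtain ⟨a, b, h1, h2, h3⟩ := hL n
      refine ⟨-a, b, h1, fun h => h2 (by push_cast at h; rw [neg_div] at h; linarith), ?_⟩
      rw [← abs_neg]; convert h3 using 2; push_cast; ring
    · exact absurd ⟨0, by rw [h]; simp⟩ hL.irrational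
    · exact ⟨_, h, hL⟩
  refine ⟨2, 1, ![1, α], 1, 1 / 4, 5 / 4, by norm_num, one_pos, ?_, le_rfl, by norm_num, ?_,
    by norm_num, ⟨Z0 α, ?_, ?_⟩, ?_⟩
  · intro i; fin_cases i <;> simp [hα]
  · rw [finrank_aux hL.irrational]; norm_num
  · intro s hs
    refine (Z0_diff hα ?_ ?_).differentiableWithinAt
    · have := hs.1; norm_num at this; exact this
    · simpa using hs.2
  · intro s hs
    exact hasSum_aux hα (by simpa using hs)
  · rintro Z ⟨hd, hs⟩ hO
    have hZ : ∀ t : ℝ, 0 < t → Z (sl t) = Z0 α (sl t) := fun t ht =>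
      unique_cont hα Z (hd.mono fun s h => ⟨by have := h.1; norm_num; exact this, by simpa using h.2⟩)
        (fun s h => (hs s (by simpa using h)).unique (hasSum_aux hα h)) (by simp; norm_num)
        (by simpa using ht)
    refine not_bigO hα hL (hO.congr' ?_ EventuallyEq.rfl)
    filter_upwards [eventually_ge_atTop 1] with T hT
    refine intervalIntegral.integral_congr fun t ht => ?_
    rw [uIcc_of_le hT] at ht
    have := hZ t (by linarith [ht.1])
    simp only [sl] at this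
    simp only [sl, this]

end Pool.Agent.Results.MP_047497_nt.Liouville
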